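import Pool.Agent.Lib.MP_8fffab_lc.Proof

namespace Pool.Agent.Lib.MP_8fffab_lc_Linear

open Finset

/-- `(2h choose h)^(d-1)` beats `b^n * poly` for a suitable `d`, if `b < 2`. -/
theorem numeric_bound (b : ℝ) (hb0 : 0 ≤ b) (hb : b < 2) :
    ∃ d : ℕ, 2 ≤ d ∧ ∀ c : ℕ, ∃ h₀ : ℕ, ∀ h, h₀ ≤ h → 1 ≤ h ∧
        (c : ℝ) * b ^ (d * (2 * h)) *
          ((d * (2 * h) : ℕ) + ((d * (2 * h)).choose d : ℕ) : ℝ) ^ c <
            (((2 * h).choose h ^ (d - 1) : ℕ) : ℝ) := by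
  obtain ⟨d, hd, hbd⟩ := MP_8fffab_lc.exists_d b hb0 hb
  refine ⟨d, hd, fun c => ?_⟩
  -- the ratio tends to zero
  set r : ℝ := (b ^ d / 2 ^ (d - 1)) ^ 2 with hr
  have hr0 : 0 ≤ b ^ d / 2 ^ (d - 1) := by positivity
  have hr1 : b ^ d / 2 ^ (d - 1) < 1 := by
    rw [div_lt_one (by positivity)]; exact hbd
  have hr2 : |r| < 1 := by
    rw [hr, abs_of_nonneg (by positivity)]
    exact pow_lt_one₀ hr0 hr1 (by norm_num)
  have hlim := (tendsto_pow_const_mul_const_pow_of_abs_lt_one ((d - 1) + d * c) hr2).const_mul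
    ((c : ℝ) * 2 ^ (d - 1) * (2 * (2 * d) ^ d) ^ c)
  rw [mul_zero] at hlim
  have hev := (hlim.eventually (gt_mem_nhds (zero_lt_one))).and
    (Filter.eventually_ge_atTop 1)
  obtain ⟨h₀, hh₀⟩ := Filter.eventually_atTop.1 hev
  refine ⟨h₀, fun h hh => ?_⟩
  obtain ⟨hlt, hh1⟩ := hh₀ h hh
  refine ⟨hh1, ?_⟩
  rw [← Nat.centralBinom_eq_two_mul_choose]
  push_cast
  have hhR : (1 : ℝ) ≤ h := by exact_mod_cast hh1
  have hdR : (2 : ℝ) ≤ d := by exact_mod_cast hd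
  -- central binomial coefficient
  have hcb : (4 : ℝ) ^ h ≤ (2 * h) * Nat.centralBinom h := by
    have := Nat.four_pow_le_two_mul_self_mul_centralBinom h (by omega)
    exact_mod_cast this
  have hcb2 : ((4 : ℝ) ^ h) ^ (d - 1) ≤ (2 * h) ^ (d - 1) * (Nat.centralBinom h : ℝ) ^ (d - 1) := by
    rw [← mul_pow]
    gcongr
  -- size of the instance
  have hN : ((d * (2 * h) : ℕ) + ((d * (2 * h)).choose d : ℕ) : ℝ) ≤
      2 * (2 * d) ^ d * (h : ℝ) ^ d := by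
    have h1 : (((d * (2 * h)).choose d : ℕ) : ℝ) ≤ ((d * (2 * h) : ℕ) : ℝ) ^ d := by
      exact_mod_cast Nat.choose_le_pow (d * (2 * h)) d
    have h2 : ((d * (2 * h) : ℕ) : ℝ) ≤ ((d * (2 * h) : ℕ) : ℝ) ^ d := by
      have h3 : (1 : ℝ) ≤ ((d * (2 * h) : ℕ) : ℝ) := by
        have : 1 ≤ d * (2 * h) := by nlinarith
        exact_mod_cast this
      calc ((d * (2 * h) : ℕ) : ℝ) = ((d * (2 * h) : ℕ) : ℝ) ^ 1 := by ring
        _ ≤ _ := pow_le_pow_right₀ h3 (by omega)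
    have h4 : ((d * (2 * h) : ℕ) : ℝ) ^ d = (2 * d) ^ d * (h : ℝ) ^ d := by
      rw [← mul_pow]
      congr 1
      push_cast
      ring
    rw [h4] at h1 h2
    linarith
  have hN' : ((d : ℝ) * (2 * h) + ((d * (2 * h)).choose d : ℕ) : ℝ) ≤
      2 * (2 * d) ^ d * (h : ℝ) ^ d := by
    have := hN
    push_cast at this
    exact this
  have hpos : (0 : ℝ) < (2 * h) ^ (d - 1) := by positivity
  have key : (2 * (h : ℝ)) ^ (d - 1) * ((c : ℝ) * b ^ (d * (2 * h)) *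
      ((d : ℝ) * (2 * h) + ((d * (2 * h)).choose d : ℕ) : ℝ) ^ c) < ((4 : ℝ) ^ h) ^ (d - 1) := by
    have h1 : (2 * (h : ℝ)) ^ (d - 1) * ((c : ℝ) * b ^ (d * (2 * h)) *
        ((d : ℝ) * (2 * h) + ((d * (2 * h)).choose d : ℕ) : ℝ) ^ c) ≤
        (2 * (h : ℝ)) ^ (d - 1) * ((c : ℝ) * b ^ (d * (2 * h)) *
          (2 * (2 * d) ^ d * (h : ℝ) ^ d) ^ c) := by
      gcongr
    refine lt_of_le_of_lt h1 ?_
    have h2 : (2 * (h : ℝ)) ^ (d - 1) * ((c : ℝ) * b ^ (d * (2 * h)) *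
          (2 * (2 * d) ^ d * (h : ℝ) ^ d) ^ c) =
        ((c : ℝ) * 2 ^ (d - 1) * (2 * (2 * d) ^ d) ^ c *
          ((h : ℝ) ^ ((d - 1) + d * c) * r ^ h)) * ((4 : ℝ) ^ h) ^ (d - 1) := by
      have e1 : r ^ h * ((4 : ℝ) ^ h) ^ (d - 1) = b ^ (d * (2 * h)) := by
        rw [hr, ← pow_mul, div_pow, ← pow_mul, ← pow_mul]
        have e2 : ((4 : ℝ) ^ h) ^ (d - 1) = 2 ^ ((d - 1) * (2 * h)) := by
          rw [← pow_mul, show (4 : ℝ) = 2 ^ 2 by norm_num, ← pow_mul]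
          congr 1
          ring
        rw [e2, div_mul_cancel₀]
        positivity
      calc (2 * (h : ℝ)) ^ (d - 1) * ((c : ℝ) * b ^ (d * (2 * h)) *
          (2 * (2 * d) ^ d * (h : ℝ) ^ d) ^ c)
          = (c : ℝ) * 2 ^ (d - 1) * (2 * (2 * d) ^ d) ^ c *
            ((h : ℝ) ^ ((d - 1) + d * c)) * b ^ (d * (2 * h)) := by
            rw [mul_pow 2 (h : ℝ), mul_pow (2 * (2 * (d : ℝ)) ^ d), ← pow_mul (h : ℝ) d c, pow_add]
            ring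
        _ = _ := by rw [← e1]; ring
    rw [h2]
    have h3 : (0 : ℝ) < ((4 : ℝ) ^ h) ^ (d - 1) := by positivity
    calc _ < 1 * ((4 : ℝ) ^ h) ^ (d - 1) := by
          apply mul_lt_mul_of_pos_right hlt h3
      _ = _ := one_mul _
  have h5 := lt_of_lt_of_le key hcb2
  exact lt_of_mul_lt_mul_left h5 hpos.le

end Pool.Agent.Lib.MP_8fffab_lc_Linear
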