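import Pool.Agent.Lib.MP_8fffab_lc_Linear.Defs
import Pool.Agent.Lib.MP_8fffab_lc_Linear.Numeric

namespace Pool.Agent.Lib.MP_8fffab_lc_Linear

open Finset Matrix Pool.Agent.Lib.MP_8fffab_lc

/-! ### Vectors of the cut -/

section cut

variable {K : Type*} [Field K] {ι : Type} {w : ℕ} (P : LinProg K ι w)

/-- the state after `t` steps -/
def pre (t : ℕ) (x : ι → Bool) : Fin w → K :=
  P.src ᵥ* ((P.order.take t).map fun a => P.mat a (x a)).prod

/-- the linear form which maps the state after `t` steps to the output -/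
def post (t : ℕ) (x : ι → Bool) : Fin w → K :=
  ((P.order.drop t).map fun a => P.mat a (x a)).prod *ᵥ P.snk

theorem value_eq (t : ℕ) (x : ι → Bool) : P.value x = pre P t x ⬝ᵥ post P t x := by
  unfold LinProg.value pre post
  rw [dotProduct_mulVec, vecMul_vecMul, ← List.prod_append, ← List.map_append,
    List.take_append_drop]

theorem pre_congr (t : ℕ) {x y : ι → Bool} (h : ∀ a ∈ P.order.take t, x a = y a) :
    pre P t x = pre P t y := by
  unfold pre
  congr 2
  apply List.map_congr_left
  intro a ha
  rw [h a ha]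

theorem post_congr (t : ℕ) {x y : ι → Bool} (h : ∀ a ∈ P.order.drop t, x a = y a) :
    post P t x = post P t y := by
  unfold post
  congr 2
  apply List.map_congr_left
  intro a ha
  rw [h a ha]

omit [Field K] in
theorem not_mem_drop {t : ℕ} {a : ι} (h : a ∈ P.order.take t) : a ∉ P.order.drop t := by
  intro h'
  have hnd := P.nodup
  rw [← List.take_append_drop t P.order] at hnd
  exact (List.disjoint_of_nodup_append hnd) h h'

end cut

/-- Rank argument: a fooling family for a bilinear form in `w` coordinates has at most `w`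
elements. -/
theorem card_le_of_dual {K : Type*} [Field K] {w : ℕ} {κ : Type*} [Fintype κ]
    (a b : κ → Fin w → K) (hd : ∀ i, a i ⬝ᵥ b i ≠ 0) (ho : ∀ i j, i ≠ j → a i ⬝ᵥ b j = 0) :
    Fintype.card κ ≤ w := by
  classical
  have hli : LinearIndependent K a := by
    rw [Fintype.linearIndependent_iff]
    intro g hg i
    have h1 : (∑ j, g j • a j) ⬝ᵥ b i = 0 := by rw [hg, zero_dotProduct]
    rw [sum_dotProduct, Finset.sum_eq_single i] at h1
    · rw [smul_dotProduct, smul_eq_mul] at h1
      exact (mul_eq_zero.1 h1).resolve_right (hd i)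
    · intro j _ hji
      rw [smul_dotProduct, ho j i hji, smul_zero]
    · intro h; exact absurd (Finset.mem_univ i) h
  have := hli.fintype_card_le_finrank
  simpa using this

section main

variable {K : Type*} [Field K] {e m n w : ℕ} (φ : Fin (e + 1) × Fin m ≃ Fin n)
  {P : LinProg K (Finset (Fin n)) w}

/-- every block is read -/
theorem block_mem_order (hP : P.Solves (e + 1) m) (σ : Fin e → Equiv.Perm (Fin m))
    {A : Finset (Fin n)} (hA : A ∈ fam φ σ) : A ∈ P.order := by
  classical
  by_contra hAo
  have hcard : ∀ A ∈ fam φ σ, A.card = e + 1 := by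
    intro A hA
    obtain ⟨i, rfl⟩ := (mem_fam φ σ A).1 hA
    exact card_block φ σ i
  have h1 := (hP (fam φ σ) hcard).2 (fam_cover φ σ)
  have h2 : ¬ HasCover ((fam φ σ).erase A) m := by
    rintro ⟨G, hG, _, hcov⟩
    have := cover_eq φ σ (hG.trans (Finset.erase_subset _ _)) hcov hA
    exact Finset.notMem_erase A _ (hG this)
  apply h2
  refine (hP _ (fun B hB => hcard B (Finset.mem_of_mem_erase hB))).1 ?_
  have h3 : P.value (fun B => decide (B ∈ (fam φ σ).erase A)) =
      P.value (fun B => decide (B ∈ fam φ σ)) := by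
    unfold LinProg.value
    congr 3
    apply List.map_congr_left
    intro B hB
    have hBA : B ≠ A := by rintro rfl; exact hAo hB
    simp [hBA]
  rw [h3]; exact h1

variable (P) in
/-- the number of blocks read in the first `t` steps -/
def cnt (σ : Fin e → Equiv.Perm (Fin m)) (t : ℕ) : ℕ :=
  (univ.filter fun i => block φ σ i ∈ P.order.take t).card

omit [Field K] in
theorem cnt_succ_le (σ : Fin e → Equiv.Perm (Fin m)) (t : ℕ) :
    cnt φ P σ (t + 1) ≤ cnt φ P σ t + 1 := by
  classical
  unfold cnt
  by_cases ht : t < P.order.length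
  · by_cases hb : ∃ i, block φ σ i = P.order[t]
    · obtain ⟨i, hi⟩ := hb
      refine (Finset.card_le_card (t := insert i
        (univ.filter fun i => block φ σ i ∈ P.order.take t)) ?_).trans (Finset.card_insert_le _ _)
      intro j hj
      rw [Finset.mem_filter, List.take_add_one, List.mem_append] at hj
      rw [Finset.mem_insert, Finset.mem_filter]
      rcases hj.2 with h | h
      · exact Or.inr ⟨Finset.mem_univ _, h⟩
      · left
        rw [List.getElem?_eq_getElem ht] at h
        simp only [Option.toList_some, List.mem_singleton] at h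
        exact block_injective φ σ (h.trans hi.symm)
    · refine (Finset.card_le_card ?_).trans (Nat.le_succ _)
      intro j hj
      rw [Finset.mem_filter, List.take_add_one, List.mem_append] at hj
      rw [Finset.mem_filter]
      rcases hj.2 with h | h
      · exact ⟨Finset.mem_univ _, h⟩
      · rw [List.getElem?_eq_getElem ht] at h
        simp only [Option.toList_some, List.mem_singleton] at h
        exact absurd ⟨j, h⟩ hb
  · rw [List.take_of_length_le (by omega), List.take_of_length_le (by omega)]
    omega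

/-- there is a step in which the number of blocks read becomes `h` -/
theorem exists_step (hP : P.Solves (e + 1) m) (σ : Fin e → Equiv.Perm (Fin m)) {h : ℕ}
    (h1 : 1 ≤ h) (h2 : h ≤ m) :
    ∃ A : Finset (Fin n), A.card = e + 1 ∧ A ∈ P.order ∧
      cnt φ P σ (P.order.idxOf A + 1) = h := by
  classical
  have hex : ∃ t, h ≤ cnt φ P σ t := by
    refine ⟨P.order.length, ?_⟩
    unfold cnt
    rw [List.take_length]
    have : (univ.filter fun i => block φ σ i ∈ P.order) = (univ : Finset (Fin m)) := by
      apply Finset.filter_true_of_mem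
      intro i _
      exact block_mem_order φ hP σ ((mem_fam φ σ _).2 ⟨i, rfl⟩)
    rw [this]
    simpa using h2
  obtain ⟨t, ht, hmin⟩ : ∃ t, h ≤ cnt φ P σ t ∧ ∀ s, s < t → ¬ h ≤ cnt φ P σ s :=
    ⟨Nat.find hex, Nat.find_spec hex, fun s hs => Nat.find_min hex hs⟩
  have h0 : cnt φ P σ 0 = 0 := by simp [cnt]
  have htpos : t ≠ 0 := by rintro rfl; omega
  obtain ⟨s, rfl⟩ := Nat.exists_eq_succ_of_ne_zero htpos
  have hs := hmin s (Nat.lt_succ_self s)
  have hle := cnt_succ_le φ (P := P) σ s
  have hs1 : cnt φ P σ (s + 1) = h := by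
    have : h ≤ cnt φ P σ (s + 1) := ht
    omega
  have hslt : s < P.order.length := by
    by_contra hcon
    apply hs
    unfold cnt at ht ⊢
    rw [List.take_of_length_le (by omega)] at ht ⊢
    exact ht
  -- the variable read in step `s` is a block
  have hblk : ∃ i, block φ σ i = P.order[s] := by
    by_contra hb
    push Not at hb
    apply hs
    refine ht.trans (Finset.card_le_card ?_)
    intro j hj
    rw [Finset.mem_filter, Nat.succ_eq_add_one, List.take_add_one, List.mem_append] at hj
    rw [Finset.mem_filter]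
    rcases hj.2 with h' | h'
    · exact ⟨Finset.mem_univ _, h'⟩
    · rw [List.getElem?_eq_getElem hslt] at h'
      simp only [Option.toList_some, List.mem_singleton] at h'
      exact absurd h' (hb j)
  obtain ⟨i, hi⟩ := hblk
  refine ⟨P.order[s], by rw [← hi]; exact card_block φ σ i, List.getElem_mem hslt, ?_⟩
  rw [P.nodup.idxOf_getElem]
  exact hs1

end main

/-- the union of the blocks read in the first `t` steps -/
def cutU {K : Type*} [Field K] {e m n w : ℕ} (φ : Fin (e + 1) × Fin m ≃ Fin n)
    (P : LinProg K (Finset (Fin n)) w) (σ : Fin e → Equiv.Perm (Fin m)) (t : ℕ) :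
    Finset (Fin n) := by
  classical
  exact univ.filter fun u => block φ σ (idx φ σ u) ∈ P.order.take t

theorem mem_cutU {K : Type*} [Field K] {e m n w : ℕ} (φ : Fin (e + 1) × Fin m ≃ Fin n)
    (P : LinProg K (Finset (Fin n)) w) (σ : Fin e → Equiv.Perm (Fin m)) (t : ℕ) (u : Fin n) :
    u ∈ cutU φ P σ t ↔ block φ σ (idx φ σ u) ∈ P.order.take t := by
  simp [cutU]

theorem card_cutU {K : Type*} [Field K] {e m n w : ℕ} (φ : Fin (e + 1) × Fin m ≃ Fin n)
    (P : LinProg K (Finset (Fin n)) w) (σ : Fin e → Equiv.Perm (Fin m)) (t : ℕ) :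
    (cutU φ P σ t).card = (e + 1) * cnt φ P σ t := by
  classical
  have h1 := Finset.card_eq_sum_card_fiberwise (f := idx φ σ) (s := cutU φ P σ t)
    (t := univ.filter fun i => block φ σ i ∈ P.order.take t) (by
      intro u hu
      have := (mem_cutU φ P σ t u).1 (Finset.mem_coe.1 hu)
      simpa using this)
  rw [h1]
  have h2 : ∀ i ∈ univ.filter (fun i => block φ σ i ∈ P.order.take t),
      ((cutU φ P σ t).filter fun u => idx φ σ u = i).card = e + 1 := by
    intro i hi
    rw [← card_block φ σ i]
    congr 1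
    ext u
    rw [Finset.mem_filter, mem_cutU, mem_block]
    constructor
    · exact fun h => h.2
    · rintro rfl
      exact ⟨(Finset.mem_filter.1 hi).2, rfl⟩
  rw [Finset.sum_congr rfl h2, Finset.sum_const, smul_eq_mul]
  unfold cnt
  ring

theorem lower_bound_linear {K : Type*} [Field K] (e h : ℕ) (hh : 1 ≤ h) (n w : ℕ)
    (φ : Fin (e + 1) × Fin (2 * h) ≃ Fin n)
    (P : LinProg K (Finset (Fin n)) w) (hP : P.Solves (e + 1) (2 * h)) :
    (Nat.centralBinom h) ^ e ≤ n.choose (e + 1) * w := by
  classical
  choose D hD1 hD2 hD3 using fun σ : Fin e → Equiv.Perm (Fin (2 * h)) =>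
    exists_step φ hP σ hh (by omega : h ≤ 2 * h)
  -- the number of `σ` with a given `D` and a given cut set
  have hfib : ∀ σ₀ : Fin e → Equiv.Perm (Fin (2 * h)),
      (univ.filter fun τ => (D τ, cutU φ P τ (P.order.idxOf (D τ) + 1)) =
        (D σ₀, cutU φ P σ₀ (P.order.idxOf (D σ₀) + 1))).card ≤
        (h.factorial * h.factorial) ^ e := by
    intro σ₀
    set t := P.order.idxOf (D σ₀) + 1 with ht
    let col : (Fin e → Equiv.Perm (Fin (2 * h))) → Fin (2 * h) → Fin 3 := fun σ a =>
      if block φ σ a ∈ P.order.take t then 0 else 1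
    have hc0 : (univ.filter fun a => col σ₀ a = 0).card = h := by
      have h1 : (univ.filter fun a => col σ₀ a = 0) =
          univ.filter fun i => block φ σ₀ i ∈ P.order.take t := by
        ext a
        simp only [Finset.mem_filter, Finset.mem_univ, true_and, col]
        split_ifs with h2 <;> simp [h2]
      rw [h1]
      exact hD3 σ₀
    have hc1 : (univ.filter fun a => col σ₀ a = 1).card = h := by
      have h1 : (univ.filter fun a => col σ₀ a = 1) =
          univ.filter fun a => ¬ col σ₀ a = 0 := by
        ext a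
        simp only [Finset.mem_filter, Finset.mem_univ, true_and, col]
        split_ifs with h2 <;> simp
      have h2 := Finset.card_filter_add_card_filter_not (s := (univ : Finset (Fin (2 * h))))
        (p := fun a => col σ₀ a = 0)
      rw [Finset.card_univ, Fintype.card_fin, hc0] at h2
      rw [h1]
      omega
    have hst := stab_bound (m := 2 * h) (h := h) rfl (col σ₀) hc0.le hc1.le (by omega)
    have hcol : ∀ τ, (D τ, cutU φ P τ (P.order.idxOf (D τ) + 1)) =
        (D σ₀, cutU φ P σ₀ (P.order.idxOf (D σ₀) + 1)) →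
        ∀ u, col τ (idx φ τ u) = col σ₀ (idx φ σ₀ u) := by
      intro τ hτ u
      have h1 : D τ = D σ₀ := (Prod.mk.inj hτ).1
      have h2 : cutU φ P τ (P.order.idxOf (D τ) + 1) = cutU φ P σ₀ (P.order.idxOf (D σ₀) + 1) :=
        (Prod.mk.inj hτ).2
      rw [h1, ← ht] at h2
      have h3 : u ∈ cutU φ P τ t ↔ u ∈ cutU φ P σ₀ t := by rw [h2]
      rw [mem_cutU, mem_cutU] at h3
      simp only [col, h3]
    have h1 : ∀ τ, (D τ, cutU φ P τ (P.order.idxOf (D τ) + 1)) =
        (D σ₀, cutU φ P σ₀ (P.order.idxOf (D σ₀) + 1)) → ∀ k : Fin e,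
        col σ₀ ∘ ((σ₀ k).trans (τ k).symm : Equiv.Perm (Fin (2 * h))) = col σ₀ := by
      intro τ hτ k
      have h2 : ∀ a, col τ a = col σ₀ a := by
        intro a
        have := hcol τ hτ (φ (0, a))
        rwa [idx_zero, idx_zero] at this
      funext a
      have h3 := hcol τ hτ (φ (k.succ, σ₀ k a))
      rw [idx_succ, idx_succ, Equiv.symm_apply_apply, h2] at h3
      exact h3
    let f : {τ // (D τ, cutU φ P τ (P.order.idxOf (D τ) + 1)) =
        (D σ₀, cutU φ P σ₀ (P.order.idxOf (D σ₀) + 1))} →
        (Fin e → {ρ : Equiv.Perm (Fin (2 * h)) // col σ₀ ∘ ρ = col σ₀}) :=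
      fun τ k => ⟨(σ₀ k).trans (τ.1 k).symm, h1 τ.1 τ.2 k⟩
    have hf : Function.Injective f := by
      intro τ τ' hττ
      apply Subtype.ext
      funext k
      have h2 := congrArg Subtype.val (congrFun hττ k)
      have h3 : (τ.1 k).symm = (τ'.1 k).symm := by
        ext a
        have := congrArg (fun ρ : Equiv.Perm (Fin (2 * h)) => (ρ ((σ₀ k).symm a) : ℕ)) h2
        simpa [f] using this
      simpa using congrArg Equiv.symm h3
    have h2 := Fintype.card_le_of_injective f hf
    rw [Fintype.card_pi, Finset.prod_const, Finset.card_univ, Fintype.card_fin] at h2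
    rw [Fintype.card_subtype] at h2
    exact h2.trans (Nat.pow_le_pow_left hst e)
  -- the number of pairs (D, cut set)
  have hpairs : (univ.image fun τ : Fin e → Equiv.Perm (Fin (2 * h)) =>
      (D τ, cutU φ P τ (P.order.idxOf (D τ) + 1))).card ≤ n.choose (e + 1) * w := by
    set I := univ.image fun τ : Fin e → Equiv.Perm (Fin (2 * h)) =>
      (D τ, cutU φ P τ (P.order.idxOf (D τ) + 1)) with hI
    have h1 : ∀ p ∈ I, p.1 ∈ (univ : Finset (Fin n)).powersetCard (e + 1) := by
      intro p hp
      obtain ⟨τ, _, rfl⟩ := Finset.mem_image.1 hp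
      rw [Finset.mem_powersetCard]
      exact ⟨Finset.subset_univ _, hD1 τ⟩
    have h2 : ∀ A ∈ (univ : Finset (Fin n)).powersetCard (e + 1),
        (I.filter fun p => p.1 = A).card ≤ w := by
      intro A _
      set t := P.order.idxOf A + 1 with ht
      have h3 : ∀ p : (I.filter fun p => p.1 = A), ∃ τ : Fin e → Equiv.Perm (Fin (2 * h)),
          cnt φ P τ t = h ∧ cutU φ P τ t = p.1.2 := by
        rintro ⟨p, hp⟩
        obtain ⟨hp1, hp2⟩ := Finset.mem_filter.1 hp
        obtain ⟨τ, _, rfl⟩ := Finset.mem_image.1 hp1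
        refine ⟨τ, ?_, ?_⟩
        · have := hD3 τ
          rw [show D τ = A from hp2] at this
          exact this
        · show _ = cutU φ P τ (P.order.idxOf (D τ) + 1)
          rw [show D τ = A from hp2]
      choose τ hτ1 hτ2 using h3
      have h4 := card_le_of_dual (K := K) (w := w)
        (fun p : (I.filter fun p => p.1 = A) =>
          pre P t (fun B => decide (B ∈ fam φ (τ p))))
        (fun p => post P t (fun B => decide (B ∈ fam φ (τ p)))) ?_ ?_
      · rw [Fintype.card_coe] at h4
        exact h4
      · intro p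
        show pre P t (fun B => decide (B ∈ fam φ (τ p))) ⬝ᵥ
          post P t (fun B => decide (B ∈ fam φ (τ p))) ≠ 0
        rw [← value_eq]
        refine (hP _ ?_).2 (fam_cover φ (τ p))
        intro B hB
        obtain ⟨i, rfl⟩ := (mem_fam φ _ B).1 hB
        exact card_block φ _ i
      · intro p q hpq
        show pre P t (fun B => decide (B ∈ fam φ (τ p))) ⬝ᵥ
          post P t (fun B => decide (B ∈ fam φ (τ q))) = 0
        -- the family which is `τ p` up to step `t` and `τ q` after it
        set F : Finset (Finset (Fin n)) :=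
          ((fam φ (τ p)).filter fun B => B ∈ P.order.take t) ∪
            ((fam φ (τ q)).filter fun B => B ∉ P.order.take t) with hF
        have h5 : pre P t (fun B => decide (B ∈ fam φ (τ p))) =
            pre P t (fun B => decide (B ∈ F)) := by
          apply pre_congr
          intro B hB
          simp [hF, hB]
        have h6 : post P t (fun B => decide (B ∈ fam φ (τ q))) =
            post P t (fun B => decide (B ∈ F)) := by
          apply post_congr
          intro B hB
          have hB' : B ∉ P.order.take t := fun h => not_mem_drop P h hB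
          simp [hF, hB']
        rw [h5, h6, ← value_eq]
        by_contra hne
        have h7 := (hP F ?_).1 hne
        · obtain ⟨G, hG, _, hcov⟩ := h7
          have hUne : cutU φ P (τ p) t ≠ cutU φ P (τ q) t := by
            rw [hτ2, hτ2]
            intro heq
            apply hpq
            apply Subtype.ext
            apply Prod.ext
            · rw [(Finset.mem_filter.1 p.2).2, (Finset.mem_filter.1 q.2).2]
            · exact heq
          have hUcard : (cutU φ P (τ q) t).card = (cutU φ P (τ p) t).card := by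
            rw [card_cutU, card_cutU, hτ1, hτ1]
          have hns : ¬ cutU φ P (τ q) t ⊆ cutU φ P (τ p) t := by
            intro hsub
            exact hUne (Finset.eq_of_subset_of_card_le hsub hUcard.ge).symm
          obtain ⟨u, hu1, hu2⟩ := Finset.not_subset.1 hns
          rw [mem_cutU] at hu1 hu2
          obtain ⟨B, hB, huB⟩ := hcov u
          rcases Finset.mem_union.1 (hG hB) with h8 | h8
          · obtain ⟨h9, h10⟩ := Finset.mem_filter.1 h8
            obtain ⟨i, rfl⟩ := (mem_fam φ _ B).1 h9
            rw [mem_block] at huB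
            rw [huB] at hu2
            exact hu2 h10
          · obtain ⟨h9, h10⟩ := Finset.mem_filter.1 h8
            obtain ⟨i, rfl⟩ := (mem_fam φ _ B).1 h9
            rw [mem_block] at huB
            rw [huB] at hu1
            exact h10 hu1
        · intro B hB
          rcases Finset.mem_union.1 hB with h8 | h8
          · obtain ⟨i, rfl⟩ := (mem_fam φ _ B).1 (Finset.mem_filter.1 h8).1
            exact card_block φ _ i
          · obtain ⟨i, rfl⟩ := (mem_fam φ _ B).1 (Finset.mem_filter.1 h8).1
            exact card_block φ _ i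
    rw [Finset.card_eq_sum_card_fiberwise (f := Prod.fst) (s := I)
      (t := (univ : Finset (Fin n)).powersetCard (e + 1)) h1]
    refine (Finset.sum_le_sum h2).trans ?_
    rw [Finset.sum_const, Finset.card_powersetCard, Finset.card_univ, Fintype.card_fin,
      smul_eq_mul]
  -- conclusion
  have hcount := Finset.card_le_mul_card_image
    (f := fun τ : Fin e → Equiv.Perm (Fin (2 * h)) =>
      (D τ, cutU φ P τ (P.order.idxOf (D τ) + 1)))
    (univ : Finset (Fin e → Equiv.Perm (Fin (2 * h)))) ((h.factorial * h.factorial) ^ e) (by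
      intro b hb
      obtain ⟨σ₀, _, rfl⟩ := Finset.mem_image.1 hb
      exact hfib σ₀)
  have hcard : (univ : Finset (Fin e → Equiv.Perm (Fin (2 * h)))).card =
      ((2 * h).factorial) ^ e := by
    rw [Finset.card_univ, Fintype.card_pi, Finset.prod_const, Finset.card_univ, Fintype.card_fin,
      Fintype.card_perm, Fintype.card_fin]
  have hcb : (2 * h).factorial = Nat.centralBinom h * (h.factorial * h.factorial) := by
    have := Nat.choose_mul_factorial_mul_factorial (show h ≤ 2 * h by omega)
    have e1 : 2 * h - h = h := by omega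
    rw [e1, ← Nat.centralBinom_eq_two_mul_choose] at this
    rw [← this]; ring
  rw [hcard, hcb, mul_pow] at hcount
  have hpos : 0 < (h.factorial * h.factorial) ^ e := by positivity
  have h2 : (h.factorial * h.factorial) ^ e * (Nat.centralBinom h) ^ e ≤
      (h.factorial * h.factorial) ^ e * (n.choose (e + 1) * w) := by
    calc _ = (Nat.centralBinom h) ^ e * (h.factorial * h.factorial) ^ e := by ring
      _ ≤ _ := hcount
      _ ≤ _ := by gcongr
  exact Nat.le_of_mul_le_mul_left h2 hpos

theorem explicit_linear {K : Type*} [Field K] (d h : ℕ) (hd : 1 ≤ d) (hh : 1 ≤ h) (w : ℕ)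
    (P : LinProg K (Finset (Fin (d * (2 * h)))) w) (hP : P.Solves d (2 * h)) :
    (Nat.choose (2 * h) h) ^ (d - 1) ≤ (d * (2 * h)).choose d * w := by
  obtain ⟨e, rfl⟩ := Nat.exists_eq_add_of_le' hd
  rw [← Nat.centralBinom_eq_two_mul_choose]
  exact lower_bound_linear e h hh _ w finProdFinEquiv P hP

theorem asymptotic_linear (b : ℝ) (hb0 : 0 ≤ b) (hb : b < 2) :
    ∃ d : ℕ, 2 ≤ d ∧ ∀ c : ℕ, ∃ h₀ : ℕ, ∀ h, h₀ ≤ h →
      ∀ (K : Type*) [Field K] (w : ℕ) (P : LinProg K (Finset (Fin (d * (2 * h)))) w),
        P.Solves d (2 * h) →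
        (c : ℝ) * b ^ (d * (2 * h)) *
          ((d * (2 * h) : ℕ) + ((d * (2 * h)).choose d : ℕ) : ℝ) ^ c < (w : ℝ) := by
  obtain ⟨d, hd, H⟩ := numeric_bound b hb0 hb
  refine ⟨d, hd, fun c => ?_⟩
  obtain ⟨h₀, hh₀⟩ := H (c + 1)
  refine ⟨h₀, fun h hh K _ w P hP => ?_⟩
  obtain ⟨hh1, hlt⟩ := hh₀ h hh
  have h1 := explicit_linear d h (by omega) hh1 w P hP
  have h1' : (((2 * h).choose h ^ (d - 1) : ℕ) : ℝ) ≤ ((d * (2 * h)).choose d : ℝ) * w := by
    exact_mod_cast h1
  have hlt' := lt_of_lt_of_le hlt h1'
  set N : ℝ := ((d * (2 * h)).choose d : ℝ) with hN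
  set s : ℝ := ((d * (2 * h) : ℕ) : ℝ) with hs
  have hs0 : 0 ≤ s := by positivity
  have hNpos : 0 < N := by
    rw [hN]
    have : 0 < (d * (2 * h)).choose d := Nat.choose_pos (by nlinarith)
    exact_mod_cast this
  by_contra hcon
  rw [not_lt] at hcon
  have h3 : N * w ≤ N * ((c : ℝ) * b ^ (d * (2 * h)) * (s + N) ^ c) := by gcongr
  have h4 : N * ((c : ℝ) * b ^ (d * (2 * h)) * (s + N) ^ c) ≤
      ((c + 1 : ℕ) : ℝ) * b ^ (d * (2 * h)) * (s + N) ^ (c + 1) := by
    have e1 : ((c + 1 : ℕ) : ℝ) * b ^ (d * (2 * h)) * (s + N) ^ (c + 1) =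
      (s + N) * (((c + 1 : ℕ) : ℝ) * b ^ (d * (2 * h)) * (s + N) ^ c) := by rw [pow_succ]; ring
    rw [e1]
    have : (c : ℝ) ≤ ((c + 1 : ℕ) : ℝ) := by push_cast; linarith
    gcongr
    linarith
  linarith

end Pool.Agent.Lib.MP_8fffab_lc_Linear
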