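import Pool.Agent.Lib.MP_8fffab_lc.Defs

/-!
# Linear read-once programs for Set Cover: definitions

The predicate `HasCover` (the Set Cover problem itself) is the one of
`Pool.Agent.Lib.MP_8fffab_lc.Defs`.
-/

namespace Pool.Agent.Lib.MP_8fffab_lc_Linear

open Pool.Agent.Lib.MP_8fffab_lc Matrix

/-- A linear read-once program of width `w` over `K` with one Boolean input variable for each
`a : ι`.  Its state is a vector in `K ^ w`, at the start `src`.  It reads the variables in the list
`order`, which has no repetitions, one after the other; when it reads the value `β` of the variable
`a`, it multiplies its state by the matrix `mat a β`.  At the end it outputs the scalar product of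
its state with the vector `snk`. -/
structure LinProg (K : Type*) (ι : Type) (w : ℕ) where
  /-- the order in which the variables are read -/
  order : List ι
  /-- every variable is read at most once -/
  nodup : order.Nodup
  /-- the state at the start -/
  src : Fin w → K
  /-- the matrix applied to the state when the given variable has the given value -/
  mat : ι → Bool → Matrix (Fin w) (Fin w) K
  /-- the vector of the linear form applied at the end -/
  snk : Fin w → K

/-- The output of the program `P` on the input `x`:
`src * mat a₁ (x a₁) * ⋯ * mat a_r (x a_r) * snk`, where `a₁, …, a_r` is the order of `P`. -/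
def LinProg.value {K : Type*} [Field K] {ι : Type} {w : ℕ} (P : LinProg K ι w) (x : ι → Bool) : K :=
  (P.src ᵥ* (P.order.map fun a => P.mat a (x a)).prod) ⬝ᵥ P.snk

/-- The program `P`, which has one input variable for each subset `A` of the universe
`{0, …, n-1}` (the bit telling whether `A` is in the family), solves Set Cover with budget `k` for
all families of `d`-element subsets: its output is non-zero exactly on the yes-instances. -/
def LinProg.Solves {K : Type*} [Field K] {n w : ℕ} (P : LinProg K (Finset (Fin n)) w)
    (d k : ℕ) : Prop :=
  ∀ F : Finset (Finset (Fin n)), (∀ A ∈ F, A.card = d) →
    (P.value (fun A => decide (A ∈ F)) ≠ 0 ↔ HasCover F k)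

end Pool.Agent.Lib.MP_8fffab_lc_Linear
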