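import Pool.Agent.Lib.MP_8fffab_lc_Linear.Defs

namespace Pool.Agent.Lib.MP_8fffab_lc_Linear

open Finset Matrix Pool.Agent.Lib.MP_8fffab_lc

/-! ### The dynamic program over subsets as a linear read-once program -/

section upper

variable (K : Type*) [Field K] (n k : ℕ)

/-- states: the union of the sets chosen so far and their number -/
abbrev St (n k : ℕ) : Type := Finset (Fin n) × Fin (k + 1)

theorem card_St : Fintype.card (St n k) = 2 ^ n * (k + 1) := by
  simp [St, Fintype.card_prod]

/-- numbering of the states -/
noncomputable def num : St n k ≃ Fin (2 ^ n * (k + 1)) :=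
  Fintype.equivFinOfCardEq (card_St n k)

/-- the matrix on states -/
noncomputable def dpMat (A : Finset (Fin n)) (β : Bool) : Matrix (St n k) (St n k) K :=
  fun s t => (if s = t then 1 else 0) +
    (if β = true ∧ s.1 ∪ A = t.1 ∧ (s.2 : ℕ) + 1 = (t.2 : ℕ) then 1 else 0)

/-- the final vector on states -/
def dpSnk : St n k → K := fun s => if s.1 = univ then 1 else 0

/-- the program -/
noncomputable def dp (L : List (Finset (Fin n))) (hL : L.Nodup) :
    LinProg K (Finset (Fin n)) (2 ^ n * (k + 1)) where
  order := L
  nodup := hL
  src := fun i => if (num n k).symm i = (∅, 0) then 1 else 0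
  mat := fun A β => (dpMat K n k A β).submatrix (num n k).symm (num n k).symm
  snk := fun i => dpSnk K n k ((num n k).symm i)

theorem prod_submatrix {S : Type*} [Fintype S] [DecidableEq S] {w : ℕ} (f : S ≃ Fin w)
    {ι : Type} (M : ι → Matrix S S K) (L : List ι) :
    (L.map fun a => (M a).submatrix f.symm f.symm).prod =
      ((L.map M).prod).submatrix f.symm f.symm := by
  induction L with
  | nil => simp
  | cons a L ih =>
    rw [List.map_cons, List.prod_cons, ih, List.map_cons, List.prod_cons]
    rw [Matrix.submatrix_mul_equiv]

theorem value_dp (L : List (Finset (Fin n))) (hL : L.Nodup) (x : Finset (Fin n) → Bool) :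
    (dp K n k L hL).value x =
      ((L.map fun A => dpMat K n k A (x A)).prod *ᵥ dpSnk K n k) (∅, 0) := by
  unfold LinProg.value
  have h1 : ((dp K n k L hL).order.map fun A => (dp K n k L hL).mat A (x A)).prod =
      ((L.map fun A => dpMat K n k A (x A)).prod).submatrix (num n k).symm (num n k).symm :=
    prod_submatrix K (num n k) (fun A => dpMat K n k A (x A)) L
  rw [h1, ← dotProduct_mulVec]
  set M := (L.map fun A => dpMat K n k A (x A)).prod with hM
  have h2 : (M.submatrix (num n k).symm (num n k).symm) *ᵥ (dp K n k L hL).snk =
      fun i => (M *ᵥ dpSnk K n k) ((num n k).symm i) := by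
    funext i
    show ∑ j, M ((num n k).symm i) ((num n k).symm j) * dpSnk K n k ((num n k).symm j) = _
    exact Equiv.sum_comp (num n k).symm (fun t => M ((num n k).symm i) t * dpSnk K n k t)
  rw [h2]
  show ∑ i, (if (num n k).symm i = (∅, 0) then (1 : K) else 0) *
    (M *ᵥ dpSnk K n k) ((num n k).symm i) = _
  rw [Equiv.sum_comp (num n k).symm (fun s => (if s = (∅, 0) then (1 : K) else 0) *
    (M *ᵥ dpSnk K n k) s)]
  simp

/-- the value of a state: the number of ways to complete it, which is non-zero exactly if it can
be completed -/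
theorem dp_spec (x : Finset (Fin n) → Bool) (L : List (Finset (Fin n))) (hL : L.Nodup) :
    ∀ s : St n k, ∃ N : ℕ,
      ((L.map fun A => dpMat K n k A (x A)).prod *ᵥ dpSnk K n k) s = (N : K) ∧
      (0 < N ↔ ∃ G : Finset (Finset (Fin n)), (∀ A ∈ G, A ∈ L ∧ x A = true) ∧
        (s.2 : ℕ) + G.card ≤ k ∧ ∀ u, u ∈ s.1 ∨ ∃ A ∈ G, u ∈ A) := by
  classical
  induction L with
  | nil =>
    intro s
    refine ⟨if s.1 = univ then 1 else 0, ?_, ?_⟩
    · simp [dpSnk]
    · constructor
      · intro h
        have hs : s.1 = univ := by
          by_contra hne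
          simp [hne] at h
        refine ⟨∅, by simp, ?_, fun u => Or.inl (by rw [hs]; exact Finset.mem_univ u)⟩
        have := s.2.2
        simp only [Finset.card_empty]
        omega
      · rintro ⟨G, hG, _, hcov⟩
        have hs : s.1 = univ := by
          rw [Finset.eq_univ_iff_forall]
          intro u
          rcases hcov u with h | ⟨A, hA, _⟩
          · exact h
          · exact absurd (hG A hA).1 (by simp)
        simp [hs]
  | cons A L ih =>
    intro s
    have hA : A ∉ L := (List.nodup_cons.1 hL).1
    have hL' : L.Nodup := (List.nodup_cons.1 hL).2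
    specialize ih hL'
    rw [List.map_cons, List.prod_cons, ← mulVec_mulVec]
    set v := ((L.map fun A => dpMat K n k A (x A)).prod *ᵥ dpSnk K n k) with hv
    have hstep : (dpMat K n k A (x A) *ᵥ v) s = v s +
        (if h : x A = true ∧ (s.2 : ℕ) + 1 < k + 1 then v (s.1 ∪ A, ⟨(s.2 : ℕ) + 1, h.2⟩)
          else 0) := by
      show ∑ t, dpMat K n k A (x A) s t * v t = _
      unfold dpMat
      simp only [add_mul, Finset.sum_add_distrib]
      congr 1
      · simp
      · by_cases h : x A = true ∧ (s.2 : ℕ) + 1 < k + 1
        · rw [dif_pos h, Finset.sum_eq_single (s.1 ∪ A, ⟨(s.2 : ℕ) + 1, h.2⟩)]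
          · simp [h.1]
          · intro t _ ht
            rw [if_neg, zero_mul]
            rintro ⟨_, h2, h3⟩
            apply ht
            apply Prod.ext
            · exact h2.symm
            · apply Fin.ext
              exact h3.symm
          · intro h'; exact absurd (Finset.mem_univ _) h'
        · rw [dif_neg h]
          apply Finset.sum_eq_zero
          intro t _
          rw [if_neg, zero_mul]
          rintro ⟨h1, _, h3⟩
          apply h
          refine ⟨h1, ?_⟩
          rw [h3]
          exact t.2.2
    obtain ⟨N₁, hN₁, hiff₁⟩ := ih s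
    by_cases h : x A = true ∧ (s.2 : ℕ) + 1 < k + 1
    · obtain ⟨N₂, hN₂, hiff₂⟩ := ih (s.1 ∪ A, ⟨(s.2 : ℕ) + 1, h.2⟩)
      refine ⟨N₁ + N₂, ?_, ?_⟩
      · rw [hstep, dif_pos h, hN₁, hN₂]
        push_cast
        rfl
      · constructor
        · intro hpos
          rcases Nat.pos_of_ne_zero (n := N₁) |> fun _ => (Nat.eq_zero_or_pos N₁) with h0 | h0
          · have : 0 < N₂ := by omega
            obtain ⟨G, hG, hc, hcov⟩ := hiff₂.1 this
            refine ⟨insert A G, ?_, ?_, ?_⟩
            · intro B hB
              rcases Finset.mem_insert.1 hB with rfl | hB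
              · exact ⟨List.mem_cons_self, h.1⟩
              · exact ⟨List.mem_cons_of_mem _ (hG B hB).1, (hG B hB).2⟩
            · have h5 := Finset.card_insert_le A G
              simp only at hc
              omega
            · intro u
              rcases hcov u with h6 | ⟨B, hB, hu⟩
              · rcases Finset.mem_union.1 h6 with h7 | h7
                · exact Or.inl h7
                · exact Or.inr ⟨A, Finset.mem_insert_self _ _, h7⟩
              · exact Or.inr ⟨B, Finset.mem_insert_of_mem hB, hu⟩
          · obtain ⟨G, hG, hc, hcov⟩ := hiff₁.1 h0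
            exact ⟨G, fun B hB => ⟨List.mem_cons_of_mem _ (hG B hB).1, (hG B hB).2⟩, hc, hcov⟩
        · rintro ⟨G, hG, hc, hcov⟩
          by_cases hAG : A ∈ G
          · have : 0 < N₂ := by
              refine hiff₂.2 ⟨G.erase A, ?_, ?_, ?_⟩
              · intro B hB
                obtain ⟨hne, hB'⟩ := Finset.mem_erase.1 hB
                refine ⟨?_, (hG B hB').2⟩
                rcases List.mem_cons.1 (hG B hB').1 with h8 | h8
                · exact absurd h8 hne
                · exact h8
              · have h5 := Finset.card_erase_add_one hAG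
                simp only
                omega
              · intro u
                rcases hcov u with h6 | ⟨B, hB, hu⟩
                · exact Or.inl (Finset.mem_union_left _ h6)
                · by_cases hBA : B = A
                  · rw [hBA] at hu
                    exact Or.inl (Finset.mem_union_right _ hu)
                  · exact Or.inr ⟨B, Finset.mem_erase.2 ⟨hBA, hB⟩, hu⟩
            omega
          · have : 0 < N₁ := by
              refine hiff₁.2 ⟨G, ?_, hc, hcov⟩
              intro B hB
              refine ⟨?_, (hG B hB).2⟩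
              rcases List.mem_cons.1 (hG B hB).1 with h8 | h8
              · rw [h8] at hB; exact absurd hB hAG
              · exact h8
            omega
    · refine ⟨N₁, ?_, ?_⟩
      · rw [hstep, dif_neg h, add_zero, hN₁]
      · rw [hiff₁]
        constructor
        · rintro ⟨G, hG, hc, hcov⟩
          exact ⟨G, fun B hB => ⟨List.mem_cons_of_mem _ (hG B hB).1, (hG B hB).2⟩, hc, hcov⟩
        · rintro ⟨G, hG, hc, hcov⟩
          have hAG : A ∉ G := by
            intro hAG
            apply h
            refine ⟨(hG A hAG).2, ?_⟩
            have : 0 < G.card := Finset.card_pos.2 ⟨A, hAG⟩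
            omega
          refine ⟨G, ?_, hc, hcov⟩
          intro B hB
          refine ⟨?_, (hG B hB).2⟩
          rcases List.mem_cons.1 (hG B hB).1 with h8 | h8
          · rw [h8] at hB; exact absurd hB hAG
          · exact h8

theorem upper_bound [CharZero K] (L : List (Finset (Fin n))) (hL : L.Nodup)
    (hall : ∀ A, A ∈ L) (F : Finset (Finset (Fin n))) :
    (dp K n k L hL).value (fun A => decide (A ∈ F)) ≠ 0 ↔ HasCover F k := by
  rw [value_dp]
  obtain ⟨N, hN, hiff⟩ := dp_spec K n k (fun A => decide (A ∈ F)) L hL (∅, 0)
  rw [hN, Nat.cast_ne_zero, ← Nat.pos_iff_ne_zero, hiff]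
  constructor
  · rintro ⟨G, hG, hc, hcov⟩
    refine ⟨G, fun A hA => by simpa using (hG A hA).2, by simpa using hc, fun u => ?_⟩
    rcases hcov u with h | h
    · simp at h
    · exact h
  · rintro ⟨G, hG, hc, hcov⟩
    exact ⟨G, fun A hA => ⟨hall A, by simpa using hG hA⟩, by simpa using hc,
      fun u => Or.inr (hcov u)⟩

end upper

end Pool.Agent.Lib.MP_8fffab_lc_Linear
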